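import Pool.Agent.Helper48.AED.Spec

set_option autoImplicit false

open Finset Matrix Pool.AED48

namespace Pool.Agent.Helper46.AED.EQ1

theorem main : S_EQ1 := by
  intro n d A μ U hG hS hn hμ
  have hA2 : ∀ i j, ∑ k, A i k * A k j = if i = j then 1 else 0 := by
    intro i j
    rw [hS.sq i j, ← hS.orth' i j]
    refine Finset.sum_congr rfl fun a _ => ?_
    have : μ a ^ 2 = 1 := by
      rcases hμ a with h | h <;> rw [h] <;> norm_num
    rw [this, one_mul]
  have hnn : ∀ i k j, 0 ≤ A i k * A k j := fun i k j => mul_nonneg (hG.nonneg i k) (hG.nonneg k j)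
  have hoff : ∀ i j, i ≠ j → ∀ k, A i k * A k j = 0 := by
    intro i j hij k
    have h := hA2 i j
    rw [if_neg hij] at h
    exact (Finset.sum_eq_zero_iff_of_nonneg (fun k _ => hnn i k j)).1 h k (Finset.mem_univ k)
  set i : Fin n := ⟨0, hn⟩ with hi
  have h1 := hA2 i i
  rw [if_pos rfl] at h1
  obtain ⟨k, hk⟩ : ∃ k, A i k ≠ 0 := by
    by_contra hcon
    push Not at hcon
    rw [Finset.sum_eq_zero (fun k _ => by rw [hcon k, zero_mul])] at h1
    norm_num at h1
  have hkj : ∀ j, j ≠ i → A k j = 0 := by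
    intro j hj
    have h2 := hoff i j (fun h => hj h.symm) k
    rcases mul_eq_zero.1 h2 with h3 | h3
    · exact absurd h3 hk
    · exact h3
  have h2 := hA2 k k
  rw [if_pos rfl, Finset.sum_eq_single i (fun j _ hj => by rw [hkj j hj, zero_mul])
    (fun h => absurd (Finset.mem_univ i) h)] at h2
  have h3 := hG.lt_one k i
  have h4 := hG.nonneg k i
  rw [hG.symm i k] at h2
  nlinarith

end Pool.Agent.Helper46.AED.EQ1
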