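import Pool.Agent.Helper48.AED.Spec

set_option autoImplicit false

open Finset Matrix Pool.AED48

namespace Pool.Agent.Helper46.AED.TRC

theorem main : S_TRC := by
  intro n d A μ U hG hS
  constructor
  · have h1 : ∑ a, μ a = ∑ a, ∑ i, μ a * U a i * U a i := by
      refine Finset.sum_congr rfl fun a _ => ?_
      have h := hS.orth a a
      rw [if_pos rfl] at h
      calc μ a = μ a * ∑ i, U a i * U a i := by rw [h, mul_one]
        _ = ∑ i, μ a * U a i * U a i := by
          rw [Finset.mul_sum]
          exact Finset.sum_congr rfl fun i _ => by ring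
    rw [h1, Finset.sum_comm]
    refine Finset.sum_eq_zero fun i _ => ?_
    rw [← hS.eq i i]
    exact hG.diag i
  · have h1 : ∑ a, μ a ^ 3 = ∑ a, ∑ i, μ a ^ 3 * U a i * U a i := by
      refine Finset.sum_congr rfl fun a _ => ?_
      have h := hS.orth a a
      rw [if_pos rfl] at h
      calc μ a ^ 3 = μ a ^ 3 * ∑ i, U a i * U a i := by rw [h, mul_one]
        _ = ∑ i, μ a ^ 3 * U a i * U a i := by
          rw [Finset.mul_sum]
          exact Finset.sum_congr rfl fun i _ => by ring
    rw [h1, Finset.sum_comm]
    refine Finset.sum_eq_zero fun i _ => ?_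
    rw [← hS.cube i i]
    refine Finset.sum_eq_zero fun k _ => Finset.sum_eq_zero fun l _ => ?_
    exact hG.tri i k l

end Pool.Agent.Helper46.AED.TRC
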